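import Pool.Agent.Helper95.HS.GoalsB

/-! Packet HS POSTT (helper95): a semipositive metric of the canonical bundle of constant corank. -/

open Complex Metric Set Filter Topology MeasureTheory
open scoped ContDiff ComplexConjugate ComplexOrder Manifold MatrixOrder Matrix

namespace Pool.Agent.Helper32.HS

open Pool.Agent.Helper95.Lin Pool.Agent.Helper16.Abund Pool.Agent.Helper10.SP
  Pool.Agent.Helper95.RK Pool.Agent.Helper57.HS Pool.Agent.Helper95.HS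

universe u

theorem dd_re {n : ℕ} (v : Fin n → ℂ) : (star v ⬝ᵥ v).re = ∑ i, ‖v i‖ ^ 2 := by
  simp only [dotProduct, Pi.star_apply, RCLike.star_def, Complex.re_sum]
  refine Finset.sum_congr rfl fun i _ => ?_
  rw [← Complex.normSq_eq_conj_mul_self, Complex.ofReal_re, Complex.normSq_eq_norm_sq]

theorem tr_re {m n : ℕ} (M : Matrix (Fin m) (Fin n) ℂ) :
    (Matrix.trace (M * Mᴴ)).re = ∑ a, ∑ i, ‖M a i‖ ^ 2 := by
  simp only [Matrix.trace, Matrix.diag_apply, Matrix.mul_apply, Matrix.conjTranspose_apply,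
    Complex.re_sum]
  refine Finset.sum_congr rfl fun a _ => Finset.sum_congr rfl fun i _ => ?_
  rw [RCLike.star_def, Complex.mul_conj, Complex.ofReal_re, Complex.normSq_eq_norm_sq]

theorem frob_le {m n : ℕ} (M : Matrix (Fin m) (Fin n) ℂ) (v : Fin n → ℂ) :
    (star (M *ᵥ v) ⬝ᵥ (M *ᵥ v)).re ≤ (Matrix.trace (M * Mᴴ)).re * (star v ⬝ᵥ v).re := by
  rw [dd_re, dd_re, tr_re, Finset.sum_mul]
  refine Finset.sum_le_sum fun a _ => ?_
  have h1 : ‖(M *ᵥ v) a‖ ≤ ∑ i, ‖M a i‖ * ‖v i‖ := by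
    simp only [Matrix.mulVec, dotProduct]
    refine (norm_sum_le _ _).trans (le_of_eq ?_)
    exact Finset.sum_congr rfl fun i _ => norm_mul _ _
  exact (pow_le_pow_left₀ (norm_nonneg _) h1 2).trans (Finset.sum_mul_sq_le_sq_mul_sq _ _ _)

/-- `Y ≤ tr (Y Q⁻¹) Q` for `Y ≥ 0`. -/
theorem le_tr {n : ℕ} {Q Y : Matrix (Fin n) (Fin n) ℂ} (hQ : Q.PosDef) (hY : Y.PosSemidef)
    (g : Fin n → ℂ) :
    (star g ⬝ᵥ Y *ᵥ g).re ≤ (Matrix.trace (Y * Q⁻¹)).re * (star g ⬝ᵥ Q *ᵥ g).re := by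
  obtain ⟨B, hB⟩ := CStarAlgebra.nonneg_iff_eq_star_mul_self.mp hQ.posSemidef.nonneg
  obtain ⟨W, hW⟩ := CStarAlgebra.nonneg_iff_eq_star_mul_self.mp hY.nonneg
  rw [Matrix.star_eq_conjTranspose] at hB hW
  have hdet : IsUnit B.det := by
    rw [isUnit_iff_ne_zero]
    intro h0
    have h1 := hQ.det_pos
    rw [hB, Matrix.det_mul, h0, mul_zero] at h1
    exact lt_irrefl _ h1
  have h1 : B⁻¹ * B = 1 := Matrix.nonsing_inv_mul B hdet
  have hfac : ∀ (C : Matrix (Fin n) (Fin n) ℂ) (w : Fin n → ℂ),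
      star w ⬝ᵥ (Cᴴ * C) *ᵥ w = star (C *ᵥ w) ⬝ᵥ (C *ᵥ w) := by
    intro C w
    rw [← Matrix.mulVec_mulVec, Matrix.dotProduct_mulVec, Matrix.star_mulVec]
  have h2 : W *ᵥ g = (W * B⁻¹) *ᵥ (B *ᵥ g) := by
    rw [Matrix.mulVec_mulVec, Matrix.mul_assoc, h1, Matrix.mul_one]
  have h3 : Matrix.trace (Y * Q⁻¹) = Matrix.trace (W * B⁻¹ * (W * B⁻¹)ᴴ) := by
    have h4 : Q⁻¹ = B⁻¹ * (B⁻¹)ᴴ := by
      rw [hB, Matrix.mul_inv_rev, Matrix.conjTranspose_nonsing_inv]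
    rw [h4, hW, Matrix.conjTranspose_mul]
    rw [Matrix.trace_mul_comm (W * B⁻¹)]
    rw [Matrix.mul_assoc, Matrix.trace_mul_comm Wᴴ]
    rw [show W * (B⁻¹ * (B⁻¹)ᴴ) * Wᴴ = (W * B⁻¹) * ((B⁻¹)ᴴ * Wᴴ) by
      simp only [Matrix.mul_assoc]]
    rw [Matrix.trace_mul_comm]
  have h5 := frob_le (W * B⁻¹) (B *ᵥ g)
  rw [← h2] at h5
  rw [h3]
  rw [hW, hB, hfac, hfac]
  exact h5

theorem hermi_dot {n : ℕ} (A : Matrix (Fin n) (Fin n) ℂ) (e : Cn n) :
    hermi A e e = star (star e) ⬝ᵥ A *ᵥ (star e) := by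
  unfold hermi
  simp only [dotProduct, Matrix.mulVec, Pi.star_apply, Finset.mul_sum,
    RCLike.star_def, Complex.conj_conj]
  refine Finset.sum_congr rfl fun i _ => Finset.sum_congr rfl fun j _ => ?_
  ring

/-- The linear algebra at a point. -/
theorem post_alg {n k : ℕ} {H Q P : Matrix (Fin n) (Fin n) ℂ} (hH : H.PosDef) (hQ : Q.PosDef)
    (hPP : P * P = P) (hPH : P * H = H * Pᴴ) (htr : Matrix.trace P = k) {ε : ℝ}
    (hPQ : P * Q = (ε : ℂ) • (P * H)) (hN : ((1 - P) * H).PosSemidef)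
    (hε : 0 < ε) (hc : ε * (Matrix.trace ((1 - P) * H * Q⁻¹)).re < 1) :
    (∀ e, 0 ≤ (hermi (Q - (ε : ℂ) • H) e e).re) ∧
    ∃ S : Submodule ℂ (Cn n), Module.finrank ℂ S = k ∧
      ∀ e, (hermi (Q - (ε : ℂ) • H) e e).re = 0 ↔ e ∈ S := by
  set A : Matrix (Fin n) (Fin n) ℂ := Q - (ε : ℂ) • H with hA
  set N : Matrix (Fin n) (Fin n) ℂ := 1 - P with hNdef
  have hNN : N * N = N := by
    rw [hNdef, mul_sub, sub_mul, sub_mul, hPP]
    simp
  have hAh : Aᴴ = A := by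
    rw [hA, Matrix.conjTranspose_sub, Matrix.conjTranspose_smul, hQ.1.eq, hH.1.eq]
    simp
  have hPA : P * A = 0 := by
    rw [hA, mul_sub, hPQ, mul_smul_comm, sub_self]
  have hAP : A * Pᴴ = 0 := by
    have h1 := congrArg Matrix.conjTranspose hPA
    rwa [Matrix.conjTranspose_mul, hAh, Matrix.conjTranspose_zero] at h1
  have hNh : Nᴴ = 1 - Pᴴ := by
    rw [hNdef, Matrix.conjTranspose_sub, Matrix.conjTranspose_one]
  have hNAN : N * A * Nᴴ = A := by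
    rw [hNh, hNdef, sub_mul, one_mul, hPA, sub_zero, mul_sub, mul_one, hAP, sub_zero]
  have hNHN : N * H * Nᴴ = N * H := by
    have h1 : N * H = H * Nᴴ := by
      rw [hNh, hNdef, sub_mul, mul_sub, one_mul, mul_one, hPH]
    rw [h1, Matrix.mul_assoc, ← Matrix.conjTranspose_mul, hNN]
  have hsand : ∀ (M : Matrix (Fin n) (Fin n) ℂ) (y : Fin n → ℂ),
      star y ⬝ᵥ (N * M * Nᴴ) *ᵥ y = star (Nᴴ *ᵥ y) ⬝ᵥ M *ᵥ (Nᴴ *ᵥ y) := by
    intro M y
    rw [← Matrix.mulVec_mulVec, ← Matrix.mulVec_mulVec, Matrix.dotProduct_mulVec,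
      Matrix.star_mulVec, Matrix.conjTranspose_conjTranspose]
  -- the main estimate
  have hest : ∀ g : Fin n → ℂ, Nᴴ *ᵥ g = g →
      (1 - ε * (Matrix.trace (N * H * Q⁻¹)).re) * (star g ⬝ᵥ Q *ᵥ g).re ≤
        (star g ⬝ᵥ A *ᵥ g).re := by
    intro g hg
    have h1 : star g ⬝ᵥ H *ᵥ g = star g ⬝ᵥ (N * H) *ᵥ g := by
      rw [← hNHN, hsand, hg]
    have h2 := le_tr hQ hN g
    have h3 : (star g ⬝ᵥ A *ᵥ g).re = (star g ⬝ᵥ Q *ᵥ g).re - ε * (star g ⬝ᵥ (N * H) *ᵥ g).re := by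
      rw [hA, Matrix.sub_mulVec, dotProduct_sub, Matrix.smul_mulVec, dotProduct_smul, h1,
        smul_eq_mul, sub_re, re_ofReal_mul]
    rw [h3]
    have h4 := mul_le_mul_of_nonneg_left h2 hε.le
    nlinarith
  have hlev : ∀ e : Cn n, (hermi A e e).re = (star (Nᴴ *ᵥ star e) ⬝ᵥ A *ᵥ (Nᴴ *ᵥ star e)).re := by
    intro e
    rw [hermi_dot, ← hsand, hNAN]
  have hfix : ∀ y : Fin n → ℂ, Nᴴ *ᵥ (Nᴴ *ᵥ y) = Nᴴ *ᵥ y := by
    intro y
    rw [Matrix.mulVec_mulVec, ← Matrix.conjTranspose_mul, hNN]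
  have hQ0 : ∀ g : Fin n → ℂ, 0 ≤ (star g ⬝ᵥ Q *ᵥ g).re := fun g =>
    (Complex.le_def.1 (hQ.posSemidef.dotProduct_mulVec_nonneg g)).1
  have hc' : 0 < 1 - ε * (Matrix.trace (N * H * Q⁻¹)).re := by linarith
  refine ⟨fun e => ?_, LinearMap.ker (Matrix.toLin' Nᵀ), ?_, fun e => ?_⟩
  · rw [hlev]
    exact (mul_nonneg hc'.le (hQ0 _)).trans (hest _ (hfix _))
  · have hproj : LinearMap.IsProj (LinearMap.ker (Matrix.toLin' Nᵀ)) (Matrix.toLin' Pᵀ) := by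
      refine ⟨fun x => ?_, fun x hx => ?_⟩
      · rw [LinearMap.mem_ker, Matrix.toLin'_apply, Matrix.toLin'_apply, Matrix.mulVec_mulVec,
          ← Matrix.transpose_mul, hNdef, mul_sub, mul_one, hPP, sub_self]
        simp
      · rw [LinearMap.mem_ker, Matrix.toLin'_apply, hNdef, Matrix.transpose_sub,
          Matrix.transpose_one, Matrix.sub_mulVec, Matrix.one_mulVec, sub_eq_zero] at hx
        rw [Matrix.toLin'_apply]
        exact hx.symm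
    have h1 := hproj.trace
    rw [Matrix.trace_toLin'_eq, Matrix.trace_transpose, htr] at h1
    exact_mod_cast h1.symm
  · rw [LinearMap.mem_ker, Matrix.toLin'_apply]
    have h1 : Nᴴ *ᵥ star e = star (Nᵀ *ᵥ e) := by
      rw [Matrix.star_mulVec, ← Matrix.mulVec_transpose]
      rfl
    constructor
    · intro h0
      rw [hlev] at h0
      have h2 := hest _ (hfix (star e))
      rw [h0] at h2
      have h3 : (star (Nᴴ *ᵥ star e) ⬝ᵥ Q *ᵥ (Nᴴ *ᵥ star e)).re ≤ 0 := by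
        by_contra h4
        push Not at h4
        exact absurd h2 (not_le.2 (mul_pos hc' h4))
      have h5 : Nᴴ *ᵥ star e = 0 := by
        by_contra h6
        have h7 := (Complex.lt_def.1 (hQ.dotProduct_mulVec_pos h6)).1
        simp only [Complex.zero_re] at h7
        linarith
      rw [h1] at h5
      exact star_eq_zero.1 h5
    · intro h0
      rw [hlev, h1, h0]
      simp

/-- POSTT. -/
theorem postt (h1 : Pool.Agent.Helper57.HS.S_AYT.{u}) (h2 : Pool.Agent.Helper57.HS.S_COREP.{u})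
    (h3 : S_PARF.{u}) (h4 : S_SPLITT.{u}) (h5 : S_SMALLT.{u}) (h6 : S_LMF)
    (h7 : Pool.Agent.Helper10.SP.S_DETI.{u}) : S_POSTT.{u} := by
  intro n T G _ R H hH hN
  obtain ⟨k, P, hk, hP⟩ := h2 T R H hH hN fun ε hε => h1 T R H hH hN ε hε
  obtain ⟨ε, Q, hε, hQ, hsm⟩ := h5 T R H hH hN k P hP
  have hsp := h4 T R H hH k P hP ε Q hε hQ
  obtain ⟨-, -, hpos, -, -, -, -, hPn⟩ := h3 T R H hH k P hP
  have hopen : IsOpen T := hH.et.isOpen
  obtain ⟨hd1, hd2, -⟩ := h7 T R Q hQ.ket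
  have hld : ContDiffOn ℝ ∞ (ld Q) T := by
    unfold ld
    exact hd2.log fun x hx => (hd1 x hx).2.1.ne'
  refine ⟨k, ε, Q, hk, hε, hQ, ?_, ?_⟩
  · intro x hx
    have hlev : ∀ e, lev (ld Q) x e = (hermi (Q x - (ε : ℂ) • H x) e e).re := by
      intro e
      have e1 := (h6 T hopen (ld Q) hld).2.2.1 x hx e
      have e2 : LM (ld Q) x = Q x - (ε : ℂ) • H x := hQ.eq x hx
      rw [← e2, ← e1, Complex.ofReal_re]
    obtain ⟨q1, S, q2, q3⟩ := post_alg (hH.posDef x hx) (hQ.ket.posDef x hx) (hP.proj x hx)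
      (hP.herm x hx) (hP.tr x hx) (hsp x hx) (hpos x hx).2 hε (hsm x hx)
    refine ⟨fun e => ?_, S, q2, fun e => ?_⟩
    · rw [hlev]
      exact q1 e
    · rw [hlev]
      exact q3 e
  · intro hkn x hx i j l m
    have e1 := hP.null x hx i j l m
    rw [hPn hkn x hx] at e1
    simpa [Matrix.one_apply] using e1

end Pool.Agent.Helper32.HS
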