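import Pool.Agent.Helper95.HS.GoalsB
import Pool.Agent.Helper45.HS.MatC
import Pool.Agent.Helper95.Lin.Basics
import Pool.Agent.Helper27.HS.TRC
import Pool.Agent.Helper32.HS.POSTT

/-! Packet HS PARF (helper95): facts on the parallel projector. -/

open Complex Metric Set Filter Topology MeasureTheory
open scoped ContDiff ComplexConjugate ComplexOrder Manifold Matrix

namespace Pool.Agent.Helper32.HS

open Pool.Agent.Helper95.Lin Pool.Agent.Helper16.Abund Pool.Agent.Helper10.SP
  Pool.Agent.Helper95.RK Pool.Agent.Helper57.HS Pool.Agent.Helper95.HS Pool.Agent.Helper45.HS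

universe u

/-- `P H` is a closed form field for a parallel endomorphism field `P`. -/
theorem parE_chf {n : ℕ} {T : Set (Cn n)} (hT : IsOpen T) (hCRV : Pool.Agent.Helper95.HS.S_CRV)
    {H P : Cn n → Matrix (Fin n) (Fin n) ℂ} (hH : CHF H T) (hHp : ∀ x ∈ T, (H x).PosDef)
    (hP : ParE T H P) : CHF (fun x => P x * H x) T := by
  obtain ⟨-, -, -, -, hx0⟩ := hCRV T hT H hH hHp
  have hPs : SmM P T := fun i j => holo_contDiffOn_real hT (hP.holo i j)
  have hHs : SmM H T := hH.smooth
  refine ⟨hPs.mul hHs, fun x hx => ?_, fun x hx i j l => ?_⟩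
  · unfold Matrix.IsHermitian
    rw [Matrix.conjTranspose_mul, (hH.herm x hx).eq, hP.herm x hx]
  · obtain ⟨hsym, hdH, -⟩ := hx0 x hx
    have h1 : ∀ l, cdM l (fun y => P y * H y) x = Gam H l x * (P x * H x) := by
      intro l
      rw [cdM_mul hT hx hPs hHs, hP.par x hx l, hdH l]
      noncomm_ring
    have h2 : ∀ i l, cd l (fun y => (P y * H y) i j) x = (Gam H l x * (P x * H x)) i j := by
      intro i l
      rw [← h1 l]
      rfl
    rw [h2, h2, Matrix.mul_apply, Matrix.mul_apply]
    exact Finset.sum_congr rfl fun m _ => by rw [hsym i m l]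

/-- The determinant of `1 + t P` for an `H`-selfadjoint projector. -/
theorem proj_det {n k : ℕ} {H P : Matrix (Fin n) (Fin n) ℂ} (hH : H.PosDef) (hPP : P * P = P)
    (hPH : P * H = H * Pᴴ) (htr : Matrix.trace P = k) (t : ℂ) :
    (1 + t • P).det = (1 + t) ^ k := by
  have hYh : (P * H).IsHermitian := by
    unfold Matrix.IsHermitian
    rw [Matrix.conjTranspose_mul, hH.1.eq, ← hPH]
  obtain ⟨A, A', μ, h1, h2, h3, h4⟩ := Pool.Agent.Helper27.HS.trc_simul H (P * H) hH hYh
  set D : Matrix (Fin n) (Fin n) ℂ := Matrix.diagonal (fun i => (μ i : ℂ)) with hD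
  have hAh : Aᴴ * A'ᴴ = 1 := by
    rw [← Matrix.conjTranspose_mul, h2, Matrix.conjTranspose_one]
  have hP : P = A * D * A' := by
    have e1 : P * (A * Aᴴ) = A * D * Aᴴ := by rw [← h3, h4]
    have e2 : P * (A * Aᴴ) * A'ᴴ * A' = A * D * Aᴴ * A'ᴴ * A' := by rw [e1]
    have e3 : P * (A * Aᴴ) * A'ᴴ * A' = P := by
      calc P * (A * Aᴴ) * A'ᴴ * A' = P * (A * (Aᴴ * A'ᴴ) * A') := by
            simp only [Matrix.mul_assoc]
        _ = P := by rw [hAh, Matrix.mul_one, h1, Matrix.mul_one]
    have e4 : A * D * Aᴴ * A'ᴴ * A' = A * D * A' := by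
      calc A * D * Aᴴ * A'ᴴ * A' = A * D * (Aᴴ * A'ᴴ) * A' := by
            simp only [Matrix.mul_assoc]
        _ = A * D * A' := by rw [hAh, Matrix.mul_one]
    rw [← e3, e2, e4]
  have hDD : D * D = D := by
    have e1 : A' * P * A = D := by
      rw [hP]
      calc A' * (A * D * A') * A = (A' * A) * D * (A' * A) := by simp only [Matrix.mul_assoc]
        _ = D := by rw [h2, Matrix.one_mul, Matrix.mul_one]
    calc D * D = A' * P * A * (A' * P * A) := by rw [e1]
      _ = A' * P * (A * A') * P * A := by simp only [Matrix.mul_assoc]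
      _ = A' * (P * P) * A := by rw [h1, Matrix.mul_one, Matrix.mul_assoc A']
      _ = D := by rw [hPP, e1]
  have hμ : ∀ i, μ i = 0 ∨ μ i = 1 := by
    intro i
    rw [hD, Matrix.diagonal_mul_diagonal] at hDD
    have e1 := congrFun (Matrix.diagonal_injective hDD) i
    have e2 : μ i * μ i = μ i := by exact_mod_cast e1
    have e3 : μ i * (μ i - 1) = 0 := by linarith
    rcases mul_eq_zero.1 e3 with h | h
    · exact Or.inl h
    · exact Or.inr (sub_eq_zero.1 h)
  have htr' : ∑ i, μ i = k := by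
    have e1 : Matrix.trace P = ∑ i, (μ i : ℂ) := by
      rw [hP, Matrix.trace_mul_comm, ← Matrix.mul_assoc, h2, Matrix.one_mul, hD,
        Matrix.trace_diagonal]
    rw [e1] at htr
    exact_mod_cast htr
  have hdet : (1 + t • P).det = ∏ i, (1 + t * (μ i : ℂ)) := by
    have e1 : (1 : Matrix (Fin n) (Fin n) ℂ) + t • P = A * (1 + t • D) * A' := by
      rw [hP, Matrix.mul_add, Matrix.add_mul, Matrix.mul_one, h1, Matrix.mul_smul,
        Matrix.smul_mul]
    have e2 : A.det * A'.det = 1 := by rw [← Matrix.det_mul, h1, Matrix.det_one]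
    have e3 : (1 : Matrix (Fin n) (Fin n) ℂ) + t • D =
        Matrix.diagonal (fun i => 1 + t * (μ i : ℂ)) := by
      rw [hD, ← Matrix.diagonal_one, ← Matrix.diagonal_smul, Matrix.diagonal_add]
      rfl
    rw [e1, Matrix.det_mul, Matrix.det_mul, e3, Matrix.det_diagonal, mul_right_comm, e2, one_mul]
  rw [hdet]
  have e4 : ∀ i, (1 + t * (μ i : ℂ)) = if μ i = 1 then 1 + t else 1 := by
    intro i
    rcases hμ i with h | h
    · rw [if_neg (by rw [h]; norm_num), h]; simp
    · rw [if_pos h, h]; simp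
  have e5 : ∀ i, μ i = if μ i = 1 then 1 else 0 := by
    intro i
    rcases hμ i with h | h
    · rw [if_neg (by rw [h]; norm_num), h]
    · rw [if_pos h, h]
  rw [Finset.prod_congr rfl fun i _ => e4 i, Finset.prod_ite, Finset.prod_const,
    Finset.prod_const_one, mul_one]
  rw [Finset.sum_congr rfl fun i _ => e5 i, Finset.sum_ite, Finset.sum_const,
    Finset.sum_const_zero, add_zero, nsmul_eq_mul, mul_one] at htr'
  have e6 : (Finset.univ.filter fun i => μ i = 1).card = k := by exact_mod_cast htr'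
  rw [e6]

/-- If `tr (N H X⁻¹) ≤ 0` then `N = 0`. -/
theorem proj_tr {n : ℕ} {H N X : Matrix (Fin n) (Fin n) ℂ} (hH : H.PosDef)
    (hN : (N * H).PosSemidef) (hX : X.PosDef)
    (h0 : (Matrix.trace (N * H * X⁻¹)).re ≤ 0) : N = 0 := by
  have h1 : ∀ g : Fin n → ℂ, (N * H) *ᵥ g = 0 := by
    intro g
    have h2 := le_tr hX hN g
    have h3 : 0 ≤ (star g ⬝ᵥ X *ᵥ g).re :=
      (Complex.le_def.1 (hX.posSemidef.dotProduct_mulVec_nonneg g)).1
    have h4 := Complex.le_def.1 (hN.dotProduct_mulVec_nonneg g)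
    have h5 : (star g ⬝ᵥ (N * H) *ᵥ g).re ≤ 0 :=
      h2.trans (mul_nonpos_of_nonpos_of_nonneg h0 h3)
    refine (hN.dotProduct_mulVec_zero_iff g).1 ?_
    apply Complex.ext
    · exact le_antisymm h5 h4.1
    · exact h4.2.symm
  have h2 : N * H = 0 := by
    ext i j
    have h3 := congrFun (h1 (Pi.single j 1)) i
    rw [Matrix.mulVec_single_one] at h3
    exact h3
  have h3 : IsUnit H.det := hH.det_pos.ne'.isUnit
  calc N = N * H * H⁻¹ := by rw [Matrix.mul_assoc, Matrix.mul_nonsing_inv _ h3, Matrix.mul_one]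
    _ = 0 := by rw [h2, Matrix.zero_mul]

/-- PARF. -/
theorem parf (h1 : Pool.Agent.Helper95.HS.S_CRV) (h2 : S_KETP.{u}) : S_PARF.{u} := by
  intro n T G _ R H hH k P hP
  have hopen : IsOpen T := hH.et.isOpen
  obtain ⟨-, hCH, hIH⟩ := (h2 T R hH.et).2.1 H H hH hH
  have hE : ParE T H P := ⟨hP.holo, hP.herm, hP.par⟩
  have hPs : SmM P T := fun i j => holo_contDiffOn_real hopen (hP.holo i j)
  have hE1 : ParE T H fun x => 1 - P x := by
    refine ⟨fun i j => ?_, fun x hx => ?_, fun x hx l => ?_⟩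
    · simp only [Matrix.sub_apply]
      exact (differentiableOn_const _).sub (hP.holo i j)
    · rw [sub_mul, one_mul, hP.herm x hx, Matrix.conjTranspose_sub, Matrix.conjTranspose_one,
        mul_sub, mul_one]
    · have e1 := cdM_sub hopen hx (SmM.const (1 : Matrix (Fin n) (Fin n) ℂ)) hPs l
      rw [e1, cdM_const, hP.par x hx l]
      noncomm_ring
  have hps : ∀ x ∈ T, (P x * H x).PosSemidef := by
    intro x hx
    have e1 : P x * H x = P x * H x * (P x)ᴴ := by
      rw [Matrix.mul_assoc, ← hP.herm x hx, ← Matrix.mul_assoc, hP.proj x hx]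
    rw [e1]
    exact (hH.posDef x hx).posSemidef.mul_mul_conjTranspose_same (P x)
  have hns : ∀ x ∈ T, ((1 - P x) * H x).PosSemidef := by
    intro x hx
    have hNN : (1 - P x) * (1 - P x) = 1 - P x := by
      rw [mul_sub, sub_mul, sub_mul, hP.proj x hx]
      simp
    have hNH := hE1.herm x hx
    have e1 : (1 - P x) * H x = (1 - P x) * H x * (1 - P x)ᴴ := by
      rw [Matrix.mul_assoc, ← hNH, ← Matrix.mul_assoc, hNN]
    rw [e1]
    exact (hH.posDef x hx).posSemidef.mul_mul_conjTranspose_same _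
  have hsum : ∀ x ∈ T, ∀ (X Y : Matrix (Fin n) (Fin n) ℂ), crvP H (X * P x) Y x = 0 := by
    intro x hx X Y
    unfold crvP
    have e1 : ∀ j k l, ∑ i, (X * P x) j i * Y l k * crv H x i j k l = 0 := by
      intro j k l
      have e2 : ∀ i, (X * P x) j i * Y l k * crv H x i j k l =
          ∑ m, X j m * Y l k * (P x m i * crv H x i j k l) := by
        intro i
        rw [Matrix.mul_apply, Finset.sum_mul, Finset.sum_mul]
        exact Finset.sum_congr rfl fun m _ => by ring
      rw [Finset.sum_congr rfl fun i _ => e2 i, Finset.sum_comm]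
      refine Finset.sum_eq_zero fun m _ => ?_
      rw [← Finset.mul_sum, hP.null x hx m j k l, mul_zero]
    calc (∑ i, ∑ j, ∑ k, ∑ l, (X * P x) j i * Y l k * crv H x i j k l)
        = ∑ j, ∑ i, ∑ k, ∑ l, (X * P x) j i * Y l k * crv H x i j k l := Finset.sum_comm
      _ = ∑ j, ∑ k, ∑ i, ∑ l, (X * P x) j i * Y l k * crv H x i j k l :=
          Finset.sum_congr rfl fun j _ => Finset.sum_comm
      _ = ∑ j, ∑ k, ∑ l, ∑ i, (X * P x) j i * Y l k * crv H x i j k l :=
          Finset.sum_congr rfl fun j _ => Finset.sum_congr rfl fun k _ => Finset.sum_comm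
      _ = 0 := Finset.sum_eq_zero fun j _ => Finset.sum_eq_zero fun k _ =>
          Finset.sum_eq_zero fun l _ => e1 j k l
  refine ⟨⟨hE, hE1⟩, ⟨parE_chf hopen h1 hCH hH.posDef hE, parE_chf hopen h1 hCH hH.posDef hE1,
    hP.inv, ?_⟩, fun x hx => ⟨hps x hx, hns x hx⟩, ?_, hsum, fun x hx t =>
    proj_det (hH.posDef x hx) (hP.proj x hx) (hP.herm x hx) (hP.tr x hx) t, ?_, ?_⟩
  · -- invariance of `(1 - P) H`
    intro U τ hτ x hx a b
    have e1 := hP.inv U τ hτ x hx a b
    have e2 := hH.inv U τ hτ x hx a b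
    have e3 : ∀ (y a b : Cn n), hermi ((1 - P y) * H y) a b =
        hermi (H y) a b - hermi (P y * H y) a b := by
      intro y a b
      rw [sub_mul, one_mul]
      unfold hermi
      rw [← Finset.sum_sub_distrib]
      refine Finset.sum_congr rfl fun i _ => ?_
      rw [← Finset.sum_sub_distrib]
      refine Finset.sum_congr rfl fun j _ => ?_
      rw [Matrix.sub_apply]
      ring
    simp only [e3]
    rw [e1, e2]
  · intro x hx
    obtain ⟨-, -, -, -, -, htrc⟩ := (h1 T hopen H hCH hH.posDef).2.2.2.2 x hx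
    ext m j
    rw [Matrix.mul_apply, Matrix.zero_apply]
    have e1 : ∀ i, P x m i * rho H x i j =
        ∑ k, ∑ l, (- (H x)⁻¹ l k) * (P x m i * crv H x i j k l) := by
      intro i
      have e2 : rho H x i j = - ∑ k, ∑ l, (H x)⁻¹ l k * crv H x i j k l := by
        rw [htrc i j, neg_neg]
      rw [e2, mul_neg, Finset.mul_sum, ← Finset.sum_neg_distrib]
      refine Finset.sum_congr rfl fun k _ => ?_
      rw [Finset.mul_sum, ← Finset.sum_neg_distrib]
      exact Finset.sum_congr rfl fun l _ => by ring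
    rw [Finset.sum_congr rfl fun i _ => e1 i, Finset.sum_comm]
    refine Finset.sum_eq_zero fun k _ => ?_
    rw [Finset.sum_comm]
    refine Finset.sum_eq_zero fun l _ => ?_
    rw [← Finset.mul_sum, hP.null x hx m j k l, mul_zero]
  · intro hkn x hx X hX
    by_contra h0
    push Not at h0
    have e1 := proj_tr (hH.posDef x hx) (hns x hx) hX h0
    have e2 : P x = 1 := (sub_eq_zero.1 e1).symm
    have e3 := hP.tr x hx
    rw [e2, Matrix.trace_one, Fintype.card_fin] at e3
    have e4 : n = k := by exact_mod_cast e3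
    omega
  · intro hkn x hx
    have h3 : IsUnit (H x).det := (hH.posDef x hx).det_pos.ne'.isUnit
    have e1 : (1 - P x) = 0 := by
      refine proj_tr (hH.posDef x hx) (hns x hx) (hH.posDef x hx) ?_
      rw [Matrix.mul_assoc, Matrix.mul_nonsing_inv _ h3, Matrix.mul_one, Matrix.trace_sub,
        Matrix.trace_one, hP.tr x hx, Fintype.card_fin, hkn, sub_self, Complex.zero_re]
    exact (sub_eq_zero.1 e1).symm

end Pool.Agent.Helper32.HS
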