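import Pool.Agent.Helper95.HS.GoalsA

/-!
Packet HS LPL (MP_97d78d_ag, helper95): the local `L^p` estimate for quasi-plurisubharmonic functions.
-/

open Complex Metric Set Filter Topology MeasureTheory
open scoped ContDiff ComplexConjugate ComplexOrder Manifold Matrix

namespace Pool.Agent.Helper32.HS

open Pool.Agent.Helper95.Lin Pool.Agent.Helper16.Abund Pool.Agent.Helper10.SP
  Pool.Agent.Helper57.HS Pool.Agent.Helper95.HS

theorem sq_fderiv {n : ℕ} (y x v : Cn n) :
    fderiv ℝ (fun x : Cn n => ∑ i, ‖x i - y i‖ ^ 2) x v = ∑ i, 2 * inner ℝ (x i - y i) (v i) := by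
  have h1 : ∀ i : Fin n, HasFDerivAt (fun x : Cn n => x i - y i)
      (ContinuousLinearMap.proj (R := ℝ) (φ := fun _ : Fin n => ℂ) i) x := fun i =>
    (ContinuousLinearMap.proj (R := ℝ) (φ := fun _ : Fin n => ℂ) i).hasFDerivAt.sub_const _
  have h2 : HasFDerivAt (fun x : Cn n => ∑ i, ‖x i - y i‖ ^ 2) _ x :=
    HasFDerivAt.fun_sum (u := Finset.univ) fun i _ => (h1 i).norm_sq
  rw [h2.fderiv]
  simp only [sum_apply, smul_apply, ContinuousLinearMap.comp_apply, ContinuousLinearMap.proj_apply,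
    innerSL_apply_apply, nsmul_eq_mul, Nat.cast_ofNat]

theorem sq_fderiv2 {n : ℕ} (y x u v : Cn n) :
    fderiv ℝ (fun x : Cn n => ∑ i, 2 * inner ℝ (x i - y i) (v i)) x u =
      ∑ i, 2 * inner ℝ (u i) (v i) := by
  have h1 : ∀ i : Fin n, HasFDerivAt (fun x : Cn n => x i - y i)
      (ContinuousLinearMap.proj (R := ℝ) (φ := fun _ : Fin n => ℂ) i) x := fun i =>
    (ContinuousLinearMap.proj (R := ℝ) (φ := fun _ : Fin n => ℂ) i).hasFDerivAt.sub_const _
  have h2 : HasFDerivAt (fun x : Cn n => ∑ i, 2 * inner ℝ (x i - y i) (v i)) _ x :=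
    HasFDerivAt.fun_sum (u := Finset.univ) fun i _ =>
      ((h1 i).inner ℝ (hasFDerivAt_const (v i) x)).const_mul 2
  rw [h2.fderiv]
  simp

theorem hess_sq {n : ℕ} (y x u v : Cn n) :
    hess (fun x : Cn n => ∑ i, ‖x i - y i‖ ^ 2) x u v = ∑ i, 2 * inner ℝ (u i) (v i) := by
  unfold hess
  have h1 : (fun z => fderiv ℝ (fun x : Cn n => ∑ i, ‖x i - y i‖ ^ 2) z v) =
      fun x : Cn n => ∑ i, 2 * inner ℝ (x i - y i) (v i) := by
    funext z
    exact sq_fderiv y z v
  rw [h1, sq_fderiv2]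

theorem lev_sq {n : ℕ} (y x : Cn n) (i : Fin n) :
    lev (fun x : Cn n => ∑ i, ‖x i - y i‖ ^ 2) x (Pi.single i 1) = 4 := by
  unfold lev
  rw [hess_sq, hess_sq]
  have h1 : ∀ c : ℂ, ∑ j, 2 * inner ℝ ((c • (Pi.single i 1 : Cn n)) j)
      ((c • (Pi.single i 1 : Cn n)) j) = 2 * ‖c‖ ^ 2 := by
    intro c
    rw [Finset.sum_eq_single i]
    · rw [Pi.smul_apply, Pi.single_eq_same, smul_eq_mul, mul_one, real_inner_self_eq_norm_sq]
    · intro j _ hj
      rw [Pi.smul_apply, Pi.single_eq_of_ne hj, smul_zero, inner_zero_left, mul_zero]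
    · intro h
      exact absurd (Finset.mem_univ i) h
  have h2 := h1 1
  rw [one_smul] at h2
  rw [h2, h1 I]
  norm_num

theorem contDiff_sq {n : ℕ} (y : Cn n) : ContDiff ℝ ∞ (fun x : Cn n => ∑ i, ‖x i - y i‖ ^ 2) := by
  refine ContDiff.sum fun i _ => ?_
  exact ((contDiff_apply ℝ ℂ i).sub contDiff_const).norm_sq ℝ

theorem hess_lin {n : ℕ} {W : Set (Cn n)} (hW : IsOpen W) {f g : Cn n → ℝ}
    (hf : ContDiffOn ℝ ∞ f W) (hg : ContDiffOn ℝ ∞ g W) (b K : ℝ) {x : Cn n} (hx : x ∈ W)
    (u v : Cn n) :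
    hess (fun x => - f x + b * (K - g x)) x u v = - hess f x u v - b * hess g x u v := by
  unfold hess
  have h1 : (fun z => fderiv ℝ (fun x => - f x + b * (K - g x)) z v) =ᶠ[𝓝 x]
      fun z => - fderiv ℝ f z v - b * fderiv ℝ g z v := by
    filter_upwards [hW.mem_nhds hx] with z hz
    have hfz : HasFDerivAt f (fderiv ℝ f z) z :=
      ((hf.contDiffAt (hW.mem_nhds hz)).differentiableAt (by simp)).hasFDerivAt
    have hgz : HasFDerivAt g (fderiv ℝ g z) z :=
      ((hg.contDiffAt (hW.mem_nhds hz)).differentiableAt (by simp)).hasFDerivAt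
    have h2 := hfz.fun_neg.fun_add ((hgz.const_sub K).const_mul b)
    rw [h2.fderiv]
    simp
    ring
  rw [h1.fderiv_eq]
  have hd : ∀ {F : Cn n → ℝ}, ContDiffOn ℝ ∞ F W →
      HasFDerivAt (fun z => fderiv ℝ F z v) (fderiv ℝ (fun z => fderiv ℝ F z v) x) x := by
    intro F hF
    have hwC : ContDiffAt ℝ ∞ F x := hF.contDiffAt (hW.mem_nhds hx)
    have e5 : ContDiffAt ℝ 1 (fderiv ℝ F) x := hwC.fderiv_right (by norm_cast)
    exact ((e5.differentiableAt (by simp)).clm_apply (differentiableAt_const _)).hasFDerivAt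
  have h3 := (hd hf).fun_neg.fun_sub ((hd hg).const_mul b)
  rw [h3.fderiv]
  simp

theorem lev_lin {n : ℕ} {W : Set (Cn n)} (hW : IsOpen W) {f g : Cn n → ℝ}
    (hf : ContDiffOn ℝ ∞ f W) (hg : ContDiffOn ℝ ∞ g W) (b K : ℝ) {x : Cn n} (hx : x ∈ W)
    (e : Cn n) :
    lev (fun x => - f x + b * (K - g x)) x e = - lev f x e - b * lev g x e := by
  unfold lev
  rw [hess_lin hW hf hg b K hx, hess_lin hW hf hg b K hx]
  ring

theorem hermi_single {n : ℕ} (A : Matrix (Fin n) (Fin n) ℂ) (i : Fin n) :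
    hermi A (Pi.single i 1) (Pi.single i 1) = A i i := by
  unfold hermi
  rw [Finset.sum_eq_single i, Finset.sum_eq_single i]
  · simp
  · intro j _ hj
    simp [hj]
  · intro h
    exact absurd (Finset.mem_univ i) h
  · intro j _ hj
    refine Finset.sum_eq_zero fun k _ => ?_
    simp [hj]
  · intro h
    exact absurd (Finset.mem_univ i) h

/-- LPL. -/
theorem lpl (h1 : S_LPN) (hL : Pool.Agent.Helper10.SP.S_LMF) : S_LPL := by
  intro n T G _ R H hK a p hp x₀ hx₀
  have hT : IsOpen T := hK.et.isOpen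
  obtain ⟨R₀, hR₀, hball⟩ := Metric.isOpen_iff.1 hT x₀ hx₀
  obtain ⟨C₀, hC₀, hN⟩ := h1 n p hp
  set r : ℝ := R₀ / 9 with hr
  have hr0 : 0 < r := by positivity
  have h8 : closedBall x₀ (8 * r) ⊆ T := by
    refine (closedBall_subset_ball ?_).trans hball
    rw [hr]; linarith
  -- the bound for `a H`
  have hcF : ContinuousOn (fun x => ∑ i, |a * (H x i i).re|) (closedBall x₀ (8 * r)) := by
    refine continuousOn_finsetSum _ fun i _ => ?_
    refine ContinuousOn.abs (continuousOn_const.mul ?_)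
    exact Complex.continuous_re.comp_continuousOn ((hK.smooth i i).continuousOn.mono h8)
  obtain ⟨b, hb⟩ := (isCompact_closedBall x₀ (8 * r)).exists_bound_of_continuousOn hcF
  have hb0 : 0 ≤ b := (norm_nonneg _).trans (hb x₀ (mem_closedBall_self (by positivity)))
  have hbi : ∀ x ∈ closedBall x₀ (8 * r), ∀ i, a * (H x i i).re ≤ b := by
    intro x hx i
    have h2 := hb x hx
    rw [Real.norm_eq_abs] at h2
    have h3 : |a * (H x i i).re| ≤ ∑ i, |a * (H x i i).re| :=
      Finset.single_le_sum (f := fun i => |a * (H x i i).re|) (fun j _ => abs_nonneg _)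
        (Finset.mem_univ i)
    exact (le_abs_self _).trans (h3.trans ((le_abs_self _).trans h2))
  set K : ℝ := n * (5 * r) ^ 2 with hKdef
  have hK0 : 0 ≤ K := by positivity
  refine ⟨r, hr0, ?_, C₀ * (2 * r) ^ (2 * n) * (1 + b * K) ^ p, ?_⟩
  · refine (ball_subset_closedBall.trans ?_).trans h8
    exact closedBall_subset_closedBall (by linarith)
  intro u hu hpsd hu0 r' hr'0 hr' y hy
  rw [mem_ball] at hy
  have hyx : dist y x₀ < r := lt_of_lt_of_le hy hr'
  have hU6 : ball y (5 * r) ⊆ closedBall x₀ (8 * r) := by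
    intro z hz
    rw [mem_ball] at hz
    rw [mem_closedBall]
    have := dist_triangle z y x₀
    linarith
  have hUT : ball y (5 * r) ⊆ T := hU6.trans h8
  set w : Cn n → ℝ := fun x => - u x + b * (K - ∑ i, ‖x i - y i‖ ^ 2) with hw
  have hSle : ∀ x ∈ ball y (5 * r), ∑ i, ‖x i - y i‖ ^ 2 ≤ K := by
    intro x hx
    rw [mem_ball, dist_eq_norm] at hx
    have h2 : ∀ i ∈ (Finset.univ : Finset (Fin n)), ‖x i - y i‖ ^ 2 ≤ (5 * r) ^ 2 := by
      intro i _
      have h3 : ‖x i - y i‖ ≤ ‖x - y‖ := norm_le_pi_norm (x - y) i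
      exact pow_le_pow_left₀ (norm_nonneg _) (h3.trans hx.le) 2
    refine (Finset.sum_le_sum h2).trans ?_
    rw [Finset.sum_const, Finset.card_univ, Fintype.card_fin, nsmul_eq_mul]
  have huw : ∀ x ∈ ball y (5 * r), - u x ≤ w x := by
    intro x hx
    have h2 : 0 ≤ b * (K - ∑ i, ‖x i - y i‖ ^ 2) :=
      mul_nonneg hb0 (sub_nonneg.2 (hSle x hx))
    simp only [hw]
    linarith
  have hu0' : ∀ x ∈ ball y (5 * r), 0 ≤ - u x := fun x hx => by
    have := hu0 x (hUT hx)
    linarith
  have hwC : ContDiffOn ℝ ∞ w (ball y (5 * r)) := by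
    refine (hu.mono hUT).neg.add ?_
    exact contDiffOn_const.mul (contDiffOn_const.sub (contDiff_sq y).contDiffOn)
  have hmain := hN y (2 * r) (ball y (5 * r)) w (by positivity) isOpen_ball
    (closedBall_subset_ball (by linarith)) hwC (fun x hx => (hu0' x hx).trans (huw x hx)) ?_
  swap
  · intro x hx i
    have hxT : x ∈ T := hUT hx
    have e1 : lev w x (Pi.single i 1) = - lev u x (Pi.single i 1) - b * 4 := by
      rw [hw, lev_lin hT hu (contDiff_sq y).contDiffOn b K hxT, lev_sq]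
    have e2 : ((lev u x (Pi.single i 1) : ℝ) : ℂ) = LM u x i i := by
      rw [(hL T hT u hu).2.2.1 x hxT, hermi_single]
    have e3 : 0 ≤ ((a : ℂ) • H x + LM u x) i i := (hpsd x hxT).diag_nonneg
    have e4 : lev u x (Pi.single i 1) = (LM u x i i).re := by
      rw [← e2, Complex.ofReal_re]
    have e5 : 0 ≤ a * (H x i i).re + (LM u x i i).re := by
      have := (Complex.le_def.1 e3).1
      simpa using this
    have e6 := hbi x (hU6 hx) i
    rw [e1, e4]
    linarith
  have hwy : w y = - u y + b * K := by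
    simp [hw]
  have hsub : ball x₀ r' ⊆ ball y (2 * r) := by
    intro z hz
    rw [mem_ball] at hz ⊢
    have := dist_triangle z x₀ y
    rw [dist_comm x₀ y] at this
    linarith
  have hsub5 : ball y (2 * r) ⊆ ball y (5 * r) := ball_subset_ball (by linarith)
  have hwI : IntegrableOn (fun x => w x ^ p) (ball y (2 * r)) := by
    have h2 : ContinuousOn (fun x => w x ^ p) (closedBall y (2 * r)) :=
      (hwC.continuousOn.mono (closedBall_subset_ball (by linarith))).pow p
    exact (h2.integrableOn_compact (isCompact_closedBall _ _)).mono_set ball_subset_closedBall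
  have huI : IntegrableOn (fun x => (- u x) ^ p) (ball x₀ r') := by
    have h2 : ContinuousOn (fun x => (- u x) ^ p) (closedBall x₀ (8 * r)) :=
      ((hu.continuousOn.mono h8).neg).pow p
    refine (h2.integrableOn_compact (isCompact_closedBall _ _)).mono_set ?_
    exact ball_subset_closedBall.trans (closedBall_subset_closedBall (by linarith))
  have hyT : y ∈ T := hUT (mem_ball_self (by positivity))
  have huy : 0 ≤ - u y := hu0' y (mem_ball_self (by positivity))
  calc ∫ x in ball x₀ r', (- u x) ^ p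
      ≤ ∫ x in ball x₀ r', w x ^ p := by
        refine setIntegral_mono_on huI (hwI.mono_set hsub) measurableSet_ball fun x hx => ?_
        exact pow_le_pow_left₀ (hu0' x (hsub5 (hsub hx))) (huw x (hsub5 (hsub hx))) p
    _ ≤ ∫ x in ball y (2 * r), w x ^ p := by
        refine setIntegral_mono_set hwI ?_ hsub.eventuallyLE
        filter_upwards [ae_restrict_mem measurableSet_ball] with x hx
        exact pow_nonneg ((hu0' x (hsub5 hx)).trans (huw x (hsub5 hx))) p
    _ ≤ C₀ * (2 * r) ^ (2 * n) * w y ^ p := hmain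
    _ ≤ C₀ * (2 * r) ^ (2 * n) * ((1 + b * K) * (1 - u y)) ^ p := by
        refine mul_le_mul_of_nonneg_left ?_ (by positivity)
        have hbK : 0 ≤ b * K := mul_nonneg hb0 hK0
        rw [hwy]
        refine pow_le_pow_left₀ (by linarith) ?_ p
        nlinarith
    _ = C₀ * (2 * r) ^ (2 * n) * (1 + b * K) ^ p * (1 - u y) ^ p := by
        rw [mul_pow (1 + b * K) (1 - u y), ← mul_assoc]

end Pool.Agent.Helper32.HS
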