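import Pool.Agent.Helper95.HS.GoalsA

/-!
Packet HS LPN (MP_97d78d_ag, helper95): the `L^p` bound for nonnegative superharmonic functions in
a polydisc.
-/

open Complex Metric Set Filter Topology MeasureTheory
open scoped ContDiff ComplexConjugate ComplexOrder Manifold Matrix

namespace Pool.Agent.Helper32.HS

open Pool.Agent.Helper95.Lin Pool.Agent.Helper16.Abund Pool.Agent.Helper10.SP
  Pool.Agent.Helper57.HS Pool.Agent.Helper95.HS

/-- Second derivatives of a composition with an affine map. -/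
theorem hess_aff {E F : Type*} [NormedAddCommGroup E] [NormedSpace ℝ E] [NormedAddCommGroup F]
    [NormedSpace ℝ F] (A : E →L[ℝ] F) (c : F) (w : F → ℝ) {U : Set F} (hU : IsOpen U)
    (hw : ContDiffOn ℝ ∞ w U) {y : E} (hy : c + A y ∈ U) (u v : E) :
    fderiv ℝ (fun y' => fderiv ℝ (fun y'' => w (c + A y'')) y' v) y u =
      fderiv ℝ (fun x => fderiv ℝ w x (A v)) (c + A y) (A u) := by
  have hA : ∀ z : E, HasFDerivAt (fun y => c + A y) A z := fun z => A.hasFDerivAt.const_add c
  have hcont : Continuous (fun y => c + A y) := continuous_const.add A.continuous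
  have hev : ∀ᶠ y' in 𝓝 y, c + A y' ∈ U := hcont.continuousAt.eventually (hU.mem_nhds hy)
  have h1 : (fun y' => fderiv ℝ (fun y'' => w (c + A y'')) y' v) =ᶠ[𝓝 y]
      (fun y' => (fun x => fderiv ℝ w x (A v)) (c + A y')) := by
    filter_upwards [hev] with y' hy'
    have hwd : DifferentiableAt ℝ w (c + A y') :=
      (hw.contDiffAt (hU.mem_nhds hy')).differentiableAt (by simp)
    have h2 := hwd.hasFDerivAt.comp y' (hA y')
    have h3 : fderiv ℝ (fun y'' => w (c + A y'')) y' = (fderiv ℝ w (c + A y')).comp A := h2.fderiv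
    rw [h3]
    rfl
  rw [h1.fderiv_eq]
  have hwC : ContDiffAt ℝ ∞ w (c + A y) := hw.contDiffAt (hU.mem_nhds hy)
  have hgd : DifferentiableAt ℝ (fun x => fderiv ℝ w x (A v)) (c + A y) := by
    have h4 : ContDiffAt ℝ 1 (fderiv ℝ w) (c + A y) := hwC.fderiv_right (by norm_cast)
    have h5 : DifferentiableAt ℝ (fderiv ℝ w) (c + A y) := h4.differentiableAt (by simp)
    exact h5.clm_apply (differentiableAt_const _)
  have h6 := hgd.hasFDerivAt.comp y (hA y)
  have h7 : fderiv ℝ (fun y' => (fun x => fderiv ℝ w x (A v)) (c + A y')) y =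
      (fderiv ℝ (fun x => fderiv ℝ w x (A v)) (c + A y)).comp A := h6.fderiv
  rw [h7]
  rfl

theorem lev_aff {m n : ℕ} (A : Cn m →L[ℂ] Cn n) (c : Cn n) (w : Cn n → ℝ) {U : Set (Cn n)}
    (hU : IsOpen U) (hw : ContDiffOn ℝ ∞ w U) {y : Cn m} (hy : c + A y ∈ U) (e : Cn m) :
    lev (fun y => w (c + A y)) y e = lev w (c + A y) (A e) := by
  unfold lev hess
  have h1 := hess_aff (A.restrictScalars ℝ) c w hU hw (y := y) hy e e
  have h2 := hess_aff (A.restrictScalars ℝ) c w hU hw (y := y) hy (I • e) (I • e)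
  have h3 : A (I • e) = I • A e := map_smul A I e
  simp only [ContinuousLinearMap.coe_restrictScalars'] at h1 h2
  rw [h1, h2, h3]

theorem lap_aff {n : ℕ} (A : ℂ →L[ℂ] Cn n) (c : Cn n) (w : Cn n → ℝ) {U : Set (Cn n)}
    (hU : IsOpen U) (hw : ContDiffOn ℝ ∞ w U) {z : ℂ} (hz : c + A z ∈ U) :
    lap (fun y => w (c + A y)) z = lev w (c + A z) (A 1) := by
  unfold lap lev hess
  have h1 := hess_aff (A.restrictScalars ℝ) c w hU hw (y := z) hz 1 1
  have h2 := hess_aff (A.restrictScalars ℝ) c w hU hw (y := z) hz I I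
  have h3 : A I = I • A 1 := by
    rw [← map_smul, smul_eq_mul, mul_one]
  simp only [ContinuousLinearMap.coe_restrictScalars'] at h1 h2
  rw [h1, h2, h3]

theorem contDiffOn_aff {E F : Type*} [NormedAddCommGroup E] [NormedSpace ℝ E]
    [NormedAddCommGroup F] [NormedSpace ℝ F] (A : E →L[ℝ] F) (c : F) (w : F → ℝ) {U : Set F}
    (hw : ContDiffOn ℝ ∞ w U) :
    ContDiffOn ℝ ∞ (fun y => w (c + A y)) {y | c + A y ∈ U} := by
  refine hw.comp ?_ (fun y hy => hy)
  exact (contDiff_const.add A.contDiff).contDiffOn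

/-- The inclusion of the last coordinates. -/
noncomputable def inc1 (n : ℕ) : Cn n →L[ℂ] Cn (n + 1) :=
  ContinuousLinearMap.pi (fun j => Fin.cases (0 : Cn n →L[ℂ] ℂ)
    (fun i => ContinuousLinearMap.proj i) j)

theorem inc1_zero {n : ℕ} (y : Cn n) : inc1 n y 0 = 0 := rfl

theorem inc1_succ {n : ℕ} (y : Cn n) (i : Fin n) : inc1 n y i.succ = y i := rfl

theorem inc1_single {n : ℕ} (i : Fin n) :
    inc1 n (Pi.single i 1) = Pi.single i.succ 1 := by
  ext j
  refine Fin.cases ?_ (fun k => ?_) j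
  · rw [inc1_zero, Pi.single_eq_of_ne (Fin.succ_ne_zero i).symm]
  · rw [inc1_succ]
    by_cases h : k = i
    · subst h
      rw [Pi.single_eq_same, Pi.single_eq_same]
    · rw [Pi.single_eq_of_ne h, Pi.single_eq_of_ne (fun h' => h (Fin.succ_injective _ h'))]

/-- The inclusion of the first coordinate. -/
noncomputable def inc0 (n : ℕ) : ℂ →L[ℂ] Cn (n + 1) :=
  ContinuousLinearMap.smulRight (1 : ℂ →L[ℂ] ℂ) (Pi.single 0 1 : Cn (n + 1))

theorem inc0_apply {n : ℕ} (z : ℂ) : inc0 n z = Pi.single 0 z := by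
  unfold inc0
  ext j
  simp only [ContinuousLinearMap.smulRight_apply, one_apply_eq_self, Pi.smul_apply,
    smul_eq_mul]
  by_cases h : j = 0
  · subst h
    rw [Pi.single_eq_same, Pi.single_eq_same, mul_one]
  · rw [Pi.single_eq_of_ne h, Pi.single_eq_of_ne h, mul_zero]

theorem cons_eq {n : ℕ} (z : ℂ) (y : Cn n) : (Fin.insertNth 0 z y : Cn (n + 1)) =
    Pi.single 0 z + inc1 n y := by
  rw [Fin.insertNth_zero']
  ext j
  refine Fin.cases ?_ (fun k => ?_) j
  · rw [Fin.cons_zero, Pi.add_apply, Pi.single_eq_same, inc1_zero, add_zero]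
  · rw [Fin.cons_succ, Pi.add_apply, Pi.single_eq_of_ne (Fin.succ_ne_zero k), inc1_succ, zero_add]

theorem norm_cons_le {n : ℕ} (z : ℂ) (y : Cn n) {R : ℝ} (hR : 0 ≤ R) :
    ‖(Pi.single 0 z + inc1 n y : Cn (n + 1))‖ ≤ R ↔ ‖z‖ ≤ R ∧ ‖y‖ ≤ R := by
  rw [pi_norm_le_iff_of_nonneg hR, pi_norm_le_iff_of_nonneg hR, Fin.forall_fin_succ]
  simp only [Pi.add_apply, Pi.single_eq_same, inc1_zero, add_zero, inc1_succ]
  constructor
  · rintro ⟨h1, h2⟩
    refine ⟨h1, fun i => ?_⟩
    have := h2 i
    rwa [Pi.single_eq_of_ne (Fin.succ_ne_zero i), zero_add] at this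
  · rintro ⟨h1, h2⟩
    refine ⟨h1, fun i => ?_⟩
    rw [Pi.single_eq_of_ne (Fin.succ_ne_zero i), zero_add]
    exact h2 i

theorem norm_cons_lt {n : ℕ} (z : ℂ) (y : Cn n) {R : ℝ} (hR : 0 < R) :
    ‖(Pi.single 0 z + inc1 n y : Cn (n + 1))‖ < R ↔ ‖z‖ < R ∧ ‖y‖ < R := by
  rw [pi_norm_lt_iff hR, pi_norm_lt_iff hR, Fin.forall_fin_succ]
  simp only [Pi.add_apply, Pi.single_eq_same, inc1_zero, add_zero, inc1_succ]
  constructor
  · rintro ⟨h1, h2⟩
    refine ⟨h1, fun i => ?_⟩
    have := h2 i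
    rwa [Pi.single_eq_of_ne (Fin.succ_ne_zero i), zero_add] at this
  · rintro ⟨h1, h2⟩
    refine ⟨h1, fun i => ?_⟩
    rw [Pi.single_eq_of_ne (Fin.succ_ne_zero i), zero_add]
    exact h2 i

/-- The unit polydisc. -/
theorem lpn0 (h1 : S_LP1) : ∀ (n p : ℕ), 1 ≤ p → ∃ C : ℝ, 0 ≤ C ∧ ∀ (U : Set (Cn n))
    (w : Cn n → ℝ), IsOpen U → closedBall (0 : Cn n) 2 ⊆ U → ContDiffOn ℝ ∞ w U →
    (∀ x ∈ U, 0 ≤ w x) → (∀ x ∈ U, ∀ i, lev w x (Pi.single i 1) ≤ 0) →
    ∫ x in ball (0 : Cn n) 1, w x ^ p ≤ C * w 0 ^ p := by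
  intro n p hp
  induction n with
  | zero =>
    refine ⟨1, zero_le_one, fun U w _ _ _ _ _ => ?_⟩
    have hb : ball (0 : Cn 0) 1 = univ := by
      ext x
      simp only [mem_ball, mem_univ, iff_true]
      rw [Subsingleton.elim x 0, dist_self]
      exact one_pos
    have hv : (volume : Measure (Cn 0)) = Measure.dirac 0 :=
      MeasureTheory.Measure.volume_pi_eq_dirac 0
    rw [hb, Measure.restrict_univ, hv, integral_dirac, one_mul]
  | succ n ih =>
    obtain ⟨C₁, hC₁, hL1⟩ := h1 p hp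
    obtain ⟨C₂, hC₂, hL2⟩ := ih
    refine ⟨C₂ * C₁, mul_nonneg hC₂ hC₁, fun U w hU hUc hw hw0 hlev => ?_⟩
    -- the integral as an iterated integral
    have hmp := (volume_preserving_piFinSuccAbove (fun _ : Fin (n + 1) => ℂ) 0).symm
    have hball : (MeasurableEquiv.piFinSuccAbove (fun _ : Fin (n + 1) => ℂ) 0).symm ⁻¹'
        ball (0 : Cn (n + 1)) 1 = ball (0 : ℂ) 1 ×ˢ ball (0 : Cn n) 1 := by
      ext ⟨z, y⟩
      simp only [mem_preimage, mem_ball_zero_iff, mem_prod]
      change ‖(Fin.insertNth 0 z y : Cn (n + 1))‖ < 1 ↔ _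
      rw [cons_eq, norm_cons_lt z y one_pos]
    have hint : ∫ x in ball (0 : Cn (n + 1)) 1, w x ^ p =
        ∫ q in ball (0 : ℂ) 1 ×ˢ ball (0 : Cn n) 1, w (Pi.single 0 q.1 + inc1 n q.2) ^ p := by
      rw [← hmp.setIntegral_preimage_emb (MeasurableEquiv.measurableEmbedding _)
        (fun x => w x ^ p) (ball 0 1), hball]
      refine setIntegral_congr_fun (measurableSet_ball.prod measurableSet_ball) ?_
      rintro ⟨z, y⟩ _
      change w (Fin.insertNth 0 z y : Cn (n + 1)) ^ p = _
      rw [cons_eq]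
    have hcontJ : Continuous (fun q : ℂ × Cn n => (Pi.single 0 q.1 + inc1 n q.2 : Cn (n + 1))) := by
      have e1 : (fun q : ℂ × Cn n => (Pi.single 0 q.1 + inc1 n q.2 : Cn (n + 1))) =
          fun q => inc0 n q.1 + inc1 n q.2 := by
        funext q
        rw [inc0_apply]
      rw [e1]
      exact ((inc0 n).continuous.comp continuous_fst).add
        ((inc1 n).continuous.comp continuous_snd)
    have hcon : ContinuousOn (fun q : ℂ × Cn n => w (Pi.single 0 q.1 + inc1 n q.2) ^ p)
        (closedBall (0 : ℂ) 1 ×ˢ closedBall (0 : Cn n) 1) := by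
      refine (hw.continuousOn.comp hcontJ.continuousOn ?_).pow p
      rintro ⟨z, y⟩ ⟨hz, hy⟩
      apply hUc
      rw [mem_closedBall_zero_iff]
      rw [mem_closedBall_zero_iff] at hz hy
      exact (norm_cons_le z y (by norm_num)).2 ⟨hz.trans (by norm_num), hy.trans (by norm_num)⟩
    have hintg : IntegrableOn (fun q : ℂ × Cn n => w (Pi.single 0 q.1 + inc1 n q.2) ^ p)
        (ball (0 : ℂ) 1 ×ˢ ball (0 : Cn n) 1) := by
      refine (hcon.integrableOn_compact ((isCompact_closedBall _ _).prod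
        (isCompact_closedBall _ _))).mono_set ?_
      exact prod_mono ball_subset_closedBall ball_subset_closedBall
    rw [hint, Measure.volume_eq_prod, setIntegral_prod _ hintg]
    -- the inner integral
    have hin : ∀ z ∈ ball (0 : ℂ) 1,
        ∫ y in ball (0 : Cn n) 1, w (Pi.single 0 z + inc1 n y) ^ p ≤ C₂ * w (Pi.single 0 z) ^ p := by
      intro z hz
      rw [mem_ball_zero_iff] at hz
      have hct : Continuous (fun y : Cn n => (Pi.single 0 z : Cn (n + 1)) + inc1 n y) :=
        continuous_const.add (inc1 n).continuous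
      have h3 := hL2 {y | (Pi.single 0 z : Cn (n + 1)) + inc1 n y ∈ U}
        (fun y => w ((Pi.single 0 z : Cn (n + 1)) + inc1 n y))
        (hU.preimage hct) ?_
        (contDiffOn_aff ((inc1 n).restrictScalars ℝ) (Pi.single 0 z) w hw)
        (fun y hy => hw0 _ hy) ?_
      · simpa only [map_zero, add_zero] using h3
      · intro y hy
        apply hUc
        rw [mem_closedBall_zero_iff] at hy ⊢
        exact (norm_cons_le z y (by norm_num)).2 ⟨hz.le.trans (by norm_num), hy⟩
      · intro y hy i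
        rw [lev_aff (inc1 n) (Pi.single 0 z) w hU hw hy, inc1_single]
        exact hlev _ hy _
    have hcon2 : ContinuousOn (fun z : ℂ => w (Pi.single 0 z : Cn (n + 1)) ^ p)
        (closedBall (0 : ℂ) 1) := by
      have e1 : (fun z : ℂ => w (Pi.single 0 z : Cn (n + 1)) ^ p) =
          fun z => w (inc0 n z) ^ p := by
        funext z
        rw [inc0_apply]
      rw [e1]
      refine (hw.continuousOn.comp (inc0 n).continuous.continuousOn ?_).pow p
      intro z hz
      apply hUc
      rw [mem_closedBall_zero_iff] at hz ⊢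
      rw [inc0_apply]
      have h4 := (norm_cons_le z (0 : Cn n) (R := 2) (by norm_num)).2
        ⟨hz.trans (by norm_num), by rw [norm_zero]; norm_num⟩
      rwa [map_zero, add_zero] at h4
    have hint2 : IntegrableOn (fun z : ℂ => w (Pi.single 0 z : Cn (n + 1)) ^ p)
        (ball (0 : ℂ) 1) :=
      (hcon2.integrableOn_compact (isCompact_closedBall _ _)).mono_set ball_subset_closedBall
    have hintg' : IntegrableOn (fun z : ℂ => ∫ y in ball (0 : Cn n) 1,
        w (Pi.single 0 z + inc1 n y) ^ p) (ball (0 : ℂ) 1) := by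
      have h5 := hintg
      rw [IntegrableOn, Measure.volume_eq_prod, ← Measure.prod_restrict] at h5
      exact h5.integral_prod_left
    have hfirst : ∫ z in ball (0 : ℂ) 1, w (Pi.single 0 z : Cn (n + 1)) ^ p ≤ C₁ * w 0 ^ p := by
      have hct : Continuous (fun z : ℂ => (0 : Cn (n + 1)) + inc0 n z) :=
        continuous_const.add (inc0 n).continuous
      have h3 := hL1 {z | 0 + inc0 n z ∈ U} (fun z => w (0 + inc0 n z))
        (hU.preimage hct) ?_
        (contDiffOn_aff ((inc0 n).restrictScalars ℝ) 0 w hw)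
        (fun y hy => hw0 _ hy) ?_
      · simpa only [map_zero, add_zero, zero_add, inc0_apply, Pi.single_zero] using h3
      · intro z hz
        apply hUc
        rw [mem_closedBall_zero_iff] at hz ⊢
        rw [zero_add, inc0_apply]
        have h4 := (norm_cons_le z (0 : Cn n) (R := 2) (by norm_num)).2
          ⟨hz, by rw [norm_zero]; norm_num⟩
        rwa [map_zero, add_zero] at h4
      · intro z hz
        rw [lap_aff (inc0 n) 0 w hU hw hz]
        have h4 : inc0 n 1 = Pi.single 0 1 := inc0_apply 1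
        rw [h4]
        exact hlev _ hz 0
    calc ∫ z in ball (0 : ℂ) 1, ∫ y in ball (0 : Cn n) 1, w (Pi.single 0 z + inc1 n y) ^ p
        ≤ ∫ z in ball (0 : ℂ) 1, C₂ * w (Pi.single 0 z : Cn (n + 1)) ^ p :=
          setIntegral_mono_on hintg' (hint2.const_mul C₂) measurableSet_ball hin
      _ = C₂ * ∫ z in ball (0 : ℂ) 1, w (Pi.single 0 z : Cn (n + 1)) ^ p :=
          integral_const_mul _ _
      _ ≤ C₂ * (C₁ * w 0 ^ p) := mul_le_mul_of_nonneg_left hfirst hC₂
      _ = C₂ * C₁ * w 0 ^ p := by ring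

/-- LPN. -/
theorem lpn (h1 : S_LP1) : S_LPN := by
  intro n p hp
  obtain ⟨C, hC, hL⟩ := lpn0 h1 n p hp
  refine ⟨C, hC, fun a r U w hr hU hUc hw hw0 hlev => ?_⟩
  -- scaling
  set A : Cn n →L[ℂ] Cn n := (r : ℂ) • ContinuousLinearMap.id ℂ (Cn n) with hA
  have hAy : ∀ y, A y = r • y := by
    intro y
    rw [hA]
    simp only [smul_apply, ContinuousLinearMap.id_apply]
    exact (Complex.coe_smul r y)
  have hct : Continuous (fun y : Cn n => a + A y) := continuous_const.add A.continuous
  have h3 := hL {y | a + A y ∈ U} (fun y => w (a + A y))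
    (hU.preimage hct) ?_
    (contDiffOn_aff (A.restrictScalars ℝ) a w hw) (fun y hy => hw0 _ hy) ?_
  rotate_left
  · intro y hy
    apply hUc
    rw [mem_closedBall_zero_iff] at hy
    rw [mem_closedBall, dist_eq_norm, add_sub_cancel_left, hAy, norm_smul, Real.norm_eq_abs,
      abs_of_pos hr]
    nlinarith
  · intro y hy i
    rw [lev_aff A a w hU hw hy]
    have h4 : A (Pi.single i 1) = (r : ℂ) • (Pi.single i 1 : Cn n) := by
      rw [hA]
      simp
    rw [h4]
    have h5 : lev w (a + A y) ((r : ℂ) • (Pi.single i 1 : Cn n)) =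
        r ^ 2 * lev w (a + A y) (Pi.single i 1) := by
      have e1 : ∀ v : Cn n, (r : ℂ) • v = r • v := fun v => Complex.coe_smul r v
      have e2 : I • ((r : ℂ) • (Pi.single i 1 : Cn n)) = r • (I • (Pi.single i 1 : Cn n)) := by
        rw [smul_comm, e1]
      have e3 : ∀ v : Cn n, hess w (a + A y) (r • v) (r • v) = r ^ 2 * hess w (a + A y) v v := by
        intro v
        unfold hess
        have e4 : (fun x => fderiv ℝ w x (r • v)) = fun x => r • fderiv ℝ w x v := by
          funext x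
          rw [map_smul]
        rw [e4, map_smul]
        have hyU : a + A y ∈ U := hy
        have hwC : ContDiffAt ℝ ∞ w (a + A y) := hw.contDiffAt (hU.mem_nhds hyU)
        have e5 : ContDiffAt ℝ 1 (fderiv ℝ w) (a + A y) := hwC.fderiv_right (by norm_cast)
        have e6 : DifferentiableAt ℝ (fun x => fderiv ℝ w x v) (a + A y) :=
          (e5.differentiableAt (by simp)).clm_apply (differentiableAt_const _)
        rw [fderiv_fun_const_smul e6]
        simp only [smul_apply, smul_eq_mul]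
        ring
      unfold lev
      rw [e2, e1, e3, e3]
      ring
    rw [h5]
    exact mul_nonpos_of_nonneg_of_nonpos (sq_nonneg r) (hlev _ hy i)
  · -- the change of variables
    have hfr : Module.finrank ℝ (Cn n) = 2 * n := by
      have e1 : Module.finrank ℝ (Cn n) = Module.finrank ℝ ℂ * Module.finrank ℂ (Cn n) :=
        (Module.finrank_mul_finrank ℝ ℂ (Cn n)).symm
      rw [e1, Complex.finrank_real_complex, Module.finrank_fin_fun]
    have h6 := Measure.setIntegral_comp_smul_of_pos (μ := (volume : Measure (Cn n)))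
      (fun x => w (a + x) ^ p) (ball (0 : Cn n) 1) hr
    rw [smul_unitBall_of_pos hr, hfr] at h6
    have h7 : ∫ x in ball (0 : Cn n) r, w (a + x) ^ p = ∫ x in ball a r, w x ^ p := by
      have h8 := (measurePreserving_add_left (volume : Measure (Cn n)) a).setIntegral_preimage_emb
        (MeasurableEquiv.addLeft a).measurableEmbedding (fun x => w x ^ p) (ball a r)
      have h9 : (fun x => a + x) ⁻¹' ball a r = ball (0 : Cn n) r := by
        ext x
        simp [mem_ball, dist_eq_norm]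
      rw [h9] at h8
      exact h8
    rw [h7] at h6
    have h10 : ∫ y in ball (0 : Cn n) 1, w (a + A y) ^ p =
        ∫ y in ball (0 : Cn n) 1, w (a + r • y) ^ p := by
      refine setIntegral_congr_fun measurableSet_ball (fun y _ => ?_)
      change w (a + A y) ^ p = w (a + r • y) ^ p
      rw [hAy]
    have h11 : (0 : ℝ) < r ^ (2 * n) := pow_pos hr _
    simp only [map_zero, add_zero] at h3
    rw [h10, h6, smul_eq_mul, inv_mul_le_iff₀ h11] at h3
    calc ∫ x in ball a r, w x ^ p ≤ r ^ (2 * n) * (C * w a ^ p) := h3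
      _ = C * r ^ (2 * n) * w a ^ p := by ring

end Pool.Agent.Helper32.HS
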