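import Pool.Agent.Helper40.HS.ESGE

/-! Packet HS SPLITT (helper95): the twisted Kähler–Einstein metrics split. -/

open Complex Metric Set Filter Topology MeasureTheory
open scoped ContDiff ComplexConjugate ComplexOrder Manifold Matrix

namespace Pool.Agent.Helper32.HS

open Pool.Agent.Helper95.Lin Pool.Agent.Helper16.Abund Pool.Agent.Helper10.SP
  Pool.Agent.Helper95.RK Pool.Agent.Helper57.HS Pool.Agent.Helper95.HS
open Pool.Agent.Helper40.HS (testF_mul det_cont)

universe u

/-- SPLITT. -/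
theorem splitt (h0 : Pool.Agent.Helper10.SP.S_PUE.{u}) (h1 : S_PARF.{u}) (h2 : S_CLP)
    (h3 : S_AAPS) (h4 : S_ALGS) (h5 : S_ESGE.{u}) (h6 : S_TRI.{u}) (h7 : S_NULL0.{u})
    (h8 : S_KETP.{u}) : S_SPLITT.{u} := by
  intro n T G _ R H hH k P hP ε Q hε hQ
  obtain ⟨κ, hκ⟩ := h0 T R hH.et
  obtain ⟨⟨hPE, -⟩, ⟨hPH, -, hPHi, -⟩, hpos, -, hnul, -⟩ := h1 T R H hH k P hP
  have hopen : IsOpen T := hH.et.isOpen
  have hCH : CHF H T := ((h8 T R hH.et).2.1 H H hH hH).2.1
  have hCQ : CHF Q T := ((h8 T R hH.et).2.1 Q Q hQ.ket hQ.ket).2.1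
  have hsm : InvF T R (trP P H Q) :=
    (h6 T R Q hQ.ket).1 (fun x => P x * H x) hPH.smooth hPHi
  obtain ⟨hsC, hid⟩ := h2 T hopen H Q P hCH hH.posDef hCQ hQ.ket.posDef hPE
  obtain ⟨htr, -⟩ := (h8 T R hH.et).2.2 Q (trP P H Q) hQ.ket hsm
  -- the trace of the square
  set t2 : Cn n → ℝ := fun x => (Matrix.trace (H x * (Q x)⁻¹ * (P x * H x) * (Q x)⁻¹)).re with ht2
  have hkey : ∀ x ∈ T, (trL Q (trP P H Q) x).re =
      - trP P H Q x + ε * t2 x + (AAP P H Q x).re := by
    intro x hx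
    obtain ⟨-, -, e1⟩ := hid x hx
    have hdet : IsUnit (Q x).det := (hQ.ket.posDef x hx).isUnit.map Matrix.detMonoidHom
    have e2 : rho Q x * (Q x)⁻¹ = 1 - (ε : ℂ) • (H x * (Q x)⁻¹) := by
      rw [hQ.eq x hx, sub_mul, Matrix.mul_nonsing_inv _ hdet, smul_mul_assoc]
    have e3 : Matrix.trace (rho Q x * (Q x)⁻¹ * (P x * H x) * (Q x)⁻¹) =
        Matrix.trace (P x * H x * (Q x)⁻¹) -
          (ε : ℂ) * Matrix.trace (H x * (Q x)⁻¹ * (P x * H x) * (Q x)⁻¹) := by
      rw [e2, sub_mul, sub_mul, one_mul, Matrix.trace_sub, smul_mul_assoc, smul_mul_assoc,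
        Matrix.trace_smul, smul_eq_mul]
    rw [e1, e3, hnul x hx]
    simp only [add_re, sub_re, neg_re, re_ofReal_mul, zero_re, ht2]
    unfold trP
    ring
  -- the function `f`
  set f : Cn n → ℝ := fun x => ε * (trL Q (trP P H Q) x).re - (ε * trP P H Q x - k) with hf
  have hfeq : ∀ x ∈ T, f x = ((Matrix.trace (P x)).re - 2 * (ε * (Matrix.trace (P x * H x *
      (Q x)⁻¹)).re) + ε ^ 2 * (Matrix.trace (H x * (Q x)⁻¹ * (P x * H x) * (Q x)⁻¹)).re) +
      ε * (AAP P H Q x).re := by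
    intro x hx
    simp only [hf]
    rw [hkey x hx, hP.tr x hx]
    simp only [ht2, trP, natCast_re]
    ring
  have hal : ∀ x ∈ T, _ := fun x hx => h4 (H x) (Q x) (P x) (hH.posDef x hx)
    (hQ.ket.posDef x hx) (hP.proj x hx) (hP.herm x hx) ε
  have haa : ∀ x ∈ T, 0 ≤ (AAP P H Q x).re := fun x hx =>
    (h3 (Q x) (P x * H x) (fun k => Adf H Q k x) (hQ.ket.posDef x hx) (hpos x hx).1).2.1
  have hf0 : ∀ x ∈ T, 0 ≤ f x := by
    intro x hx
    rw [hfeq x hx]
    exact add_nonneg (hal x hx).1 (mul_nonneg hε.le (haa x hx))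
  have hfI : InvF T R f := by
    refine ⟨?_, ?_⟩
    · exact (contDiffOn_const.mul htr.1).sub ((contDiffOn_const.mul hsm.1).sub contDiffOn_const)
    · intro γ x y hxy
      simp only [hf]
      have a1 := htr.2 γ x y hxy
      have a2 := hsm.2 γ x y hxy
      simp only at a1
      rw [a1, a2]
  have hdc : ContinuousOn (fun x => (Q x).det.re) T := det_cont hQ.ket.smooth
  have hint : ∫ x in T, κ x * (Q x).det.re * f x ≤ 0 := by
    have i1 : IntegrableOn (fun x => κ x * ((Q x).det.re * (trL Q (trP P H Q) x).re)) T :=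
      (testF_mul hopen hκ.test (hdc.mul htr.1.continuousOn)).integrableOn
    have i2 : IntegrableOn (fun x => κ x * ((Q x).det.re * (ε * trP P H Q x))) T :=
      (testF_mul hopen hκ.test (hdc.mul (continuousOn_const.mul
        hsm.1.continuousOn))).integrableOn
    have i3 : IntegrableOn (fun x => κ x * (Q x).det.re) T :=
      (testF_mul hopen hκ.test hdc).integrableOn
    have e1 : ∫ x in T, κ x * (Q x).det.re * f x = ∫ x in T,
        (ε * (κ x * ((Q x).det.re * (trL Q (trP P H Q) x).re)) -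
          (κ x * ((Q x).det.re * (ε * trP P H Q x)) - k * (κ x * (Q x).det.re))) := by
      refine setIntegral_congr_fun hopen.measurableSet fun x _ => ?_
      simp only [hf]
      ring
    have j1 : IntegrableOn (fun x => ε * (κ x * ((Q x).det.re *
        (trL Q (trP P H Q) x).re))) T := i1.const_mul ε
    have j3 : IntegrableOn (fun x => (k : ℝ) * (κ x * (Q x).det.re)) T := i3.const_mul _
    have j2 : IntegrableOn (fun x => κ x * ((Q x).det.re * (ε * trP P H Q x)) -
        (k : ℝ) * (κ x * (Q x).det.re)) T := i2.sub j3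
    rw [e1, integral_sub j1 j2, integral_sub i2 j3, integral_const_mul, integral_const_mul]
    have e2 : ∫ x in T, κ x * ((Q x).det.re * (trL Q (trP P H Q) x).re) = 0 := by
      rw [← (h6 T R Q hQ.ket).2 κ hκ (trP P H Q) hsm]
      refine setIntegral_congr_fun hopen.measurableSet fun x _ => ?_
      ring
    have e3 := h5 T R H hH κ hκ k P hP ε Q hε hQ
    have e4 : ∫ x in T, κ x * (Q x).det.re * (ε * trP P H Q x) =
        ∫ x in T, κ x * ((Q x).det.re * (ε * trP P H Q x)) := by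
      refine setIntegral_congr_fun hopen.measurableSet fun x _ => ?_
      ring
    have e5 : ∫ x in T, κ x * (Q x).det.re = vol T κ Q := rfl
    rw [e2, e5, ← e4]
    linarith
  have hz := (h7 T R Q hQ.ket κ hκ).2 f hfI hf0 hint
  intro x hx
  have z1 := hz x hx
  rw [hfeq x hx] at z1
  refine (hal x hx).2 ?_
  have z2 := (hal x hx).1
  have z3 := mul_nonneg hε.le (haa x hx)
  linarith

end Pool.Agent.Helper32.HS
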